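import Pool.Agent.H98.RFT.Targets
import Pool.Agent.H98.RFC.Targets

/-!
# Board `rft_modules`, row FKG: positive association in the double model
-/

set_option autoImplicit false

noncomputable section

open MeasureTheory ProbabilityTheory Filter Topology

namespace Pool.Agent.H99.RFT

open Pool.Agent.H98.RFC Pool.Agent.H98.RFZ Pool.Agent.H98.RFT
open scoped FinsetFamily

section gen

variable {α : Type} [DecidableEq α]

theorem fkg0 (U : Finset α) (w f g : Finset α → ℝ) (hw : ∀ S, S ⊆ U → 0 ≤ w S)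
    (hs : ∀ S S', S ⊆ U → S' ⊆ U → w S * w S' ≤ w (S ∩ S') * w (S ∪ S'))
    (hf0 : ∀ S, S ⊆ U → 0 ≤ f S) (hg0 : ∀ S, S ⊆ U → 0 ≤ g S)
    (hf : ∀ S S', S ⊆ S' → S' ⊆ U → f S ≤ f S') (hg : ∀ S S', S ⊆ S' → S' ⊆ U → g S ≤ g S') :
    (∑ S ∈ U.powerset, w S * f S) * (∑ S ∈ U.powerset, w S * g S) ≤
      (∑ S ∈ U.powerset, w S) * ∑ S ∈ U.powerset, w S * (f S * g S) := by
  have h1 : ∀ F : Finset α → ℝ, ∑ S ∈ U.powerset, F S =
      ∑ S ∈ U.powerset, (if S ⊆ U then F S else 0) := by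
    intro F
    refine Finset.sum_congr rfl fun S hS => ?_
    rw [if_pos (Finset.mem_powerset.1 hS)]
  rw [h1 fun S => w S * f S, h1 fun S => w S * g S, h1 w, h1 fun S => w S * (f S * g S)]
  have h2 := Finset.four_functions_theorem U
    (f₁ := fun S => if S ⊆ U then w S * f S else 0)
    (f₂ := fun S => if S ⊆ U then w S * g S else 0)
    (f₃ := fun S => if S ⊆ U then w S else 0)
    (f₄ := fun S => if S ⊆ U then w S * (f S * g S) else 0)
    (fun S => by
      show (0 : ℝ) ≤ if S ⊆ U then w S * f S else 0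
      by_cases h : S ⊆ U
      · rw [if_pos h]
        exact mul_nonneg (hw S h) (hf0 S h)
      · rw [if_neg h])
    (fun S => by
      show (0 : ℝ) ≤ if S ⊆ U then w S * g S else 0
      by_cases h : S ⊆ U
      · rw [if_pos h]
        exact mul_nonneg (hw S h) (hg0 S h)
      · rw [if_neg h])
    (fun S => by
      show (0 : ℝ) ≤ if S ⊆ U then w S else 0
      by_cases h : S ⊆ U
      · rw [if_pos h]
        exact hw S h
      · rw [if_neg h])
    (fun S => by
      show (0 : ℝ) ≤ if S ⊆ U then w S * (f S * g S) else 0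
      by_cases h : S ⊆ U
      · rw [if_pos h]
        exact mul_nonneg (hw S h) (mul_nonneg (hf0 S h) (hg0 S h))
      · rw [if_neg h])
    (fun S hS T hT => by
      have hi : S ∩ T ⊆ U := Finset.inter_subset_left.trans hS
      have hu : S ∪ T ⊆ U := Finset.union_subset hS hT
      show (if S ⊆ U then w S * f S else 0) * (if T ⊆ U then w T * g T else 0) ≤
        (if S ∩ T ⊆ U then w (S ∩ T) else 0) *
          (if S ∪ T ⊆ U then w (S ∪ T) * (f (S ∪ T) * g (S ∪ T)) else 0)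
      rw [if_pos hS, if_pos hT, if_pos hi, if_pos hu]
      have a1 : f S * g T ≤ f (S ∪ T) * g (S ∪ T) :=
        mul_le_mul (hf _ _ Finset.subset_union_left hu) (hg _ _ Finset.subset_union_right hu)
          (hg0 T hT) (hf0 _ hu)
      have a2 := hs S T hS hT
      calc w S * f S * (w T * g T) = (w S * w T) * (f S * g T) := by ring
        _ ≤ (w (S ∩ T) * w (S ∪ T)) * (f (S ∪ T) * g (S ∪ T)) :=
            mul_le_mul a2 a1 (mul_nonneg (hf0 S hS) (hg0 T hT))
              (mul_nonneg (hw _ hi) (hw _ hu))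
        _ = w (S ∩ T) * (w (S ∪ T) * (f (S ∪ T) * g (S ∪ T))) := by ring)
    (𝒜 := U.powerset) (ℬ := U.powerset) (le_refl _) (le_refl _)
  rw [Finset.powerset_infs_powerset_self, Finset.powerset_sups_powerset_self] at h2
  exact h2

theorem fkg1 (U : Finset α) (w f g : Finset α → ℝ) (hw : ∀ S, S ⊆ U → 0 ≤ w S)
    (hs : ∀ S S', S ⊆ U → S' ⊆ U → w S * w S' ≤ w (S ∩ S') * w (S ∪ S'))
    (hf : ∀ S S', S ⊆ S' → S' ⊆ U → f S ≤ f S') (hg : ∀ S S', S ⊆ S' → S' ⊆ U → g S ≤ g S') :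
    (∑ S ∈ U.powerset, w S * f S) * (∑ S ∈ U.powerset, w S * g S) ≤
      (∑ S ∈ U.powerset, w S) * ∑ S ∈ U.powerset, w S * (f S * g S) := by
  have h := fkg0 U w (fun S => f S - f ∅) (fun S => g S - g ∅) hw hs
    (fun S hS => sub_nonneg.2 (hf _ _ (Finset.empty_subset S) hS))
    (fun S hS => sub_nonneg.2 (hg _ _ (Finset.empty_subset S) hS))
    (fun S S' h h' => sub_le_sub_right (hf S S' h h') _)
    (fun S S' h h' => sub_le_sub_right (hg S S' h h') _)
  have e1 : ∑ S ∈ U.powerset, w S * (f S - f ∅) =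
      (∑ S ∈ U.powerset, w S * f S) - f ∅ * ∑ S ∈ U.powerset, w S := by
    rw [Finset.mul_sum, ← Finset.sum_sub_distrib]
    refine Finset.sum_congr rfl fun S _ => ?_
    ring
  have e2 : ∑ S ∈ U.powerset, w S * (g S - g ∅) =
      (∑ S ∈ U.powerset, w S * g S) - g ∅ * ∑ S ∈ U.powerset, w S := by
    rw [Finset.mul_sum, ← Finset.sum_sub_distrib]
    refine Finset.sum_congr rfl fun S _ => ?_
    ring
  have e3 : ∑ S ∈ U.powerset, w S * ((f S - f ∅) * (g S - g ∅)) =
      (∑ S ∈ U.powerset, w S * (f S * g S)) - f ∅ * (∑ S ∈ U.powerset, w S * g S) -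
        g ∅ * (∑ S ∈ U.powerset, w S * f S) + f ∅ * g ∅ * ∑ S ∈ U.powerset, w S := by
    rw [Finset.mul_sum, Finset.mul_sum, Finset.mul_sum, ← Finset.sum_sub_distrib,
      ← Finset.sum_sub_distrib, ← Finset.sum_add_distrib]
    refine Finset.sum_congr rfl fun S _ => ?_
    ring
  rw [e1, e2, e3] at h
  nlinarith [h]

/-- the same for decreasing functions -/
theorem fkg2 (U : Finset α) (w f g : Finset α → ℝ) (hw : ∀ S, S ⊆ U → 0 ≤ w S)
    (hs : ∀ S S', S ⊆ U → S' ⊆ U → w S * w S' ≤ w (S ∩ S') * w (S ∪ S'))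
    (hf : ∀ S S', S ⊆ S' → S' ⊆ U → f S' ≤ f S) (hg : ∀ S S', S ⊆ S' → S' ⊆ U → g S' ≤ g S) :
    (∑ S ∈ U.powerset, w S * f S) * (∑ S ∈ U.powerset, w S * g S) ≤
      (∑ S ∈ U.powerset, w S) * ∑ S ∈ U.powerset, w S * (f S * g S) := by
  have h := fkg1 U w (fun S => -f S) (fun S => -g S) hw hs
    (fun S S' h h' => neg_le_neg (hf S S' h h')) (fun S S' h h' => neg_le_neg (hg S S' h h'))
  have e1 : ∑ S ∈ U.powerset, w S * (-f S) = -∑ S ∈ U.powerset, w S * f S := by
    rw [← Finset.sum_neg_distrib]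
    exact Finset.sum_congr rfl fun S _ => by ring
  have e2 : ∑ S ∈ U.powerset, w S * (-g S) = -∑ S ∈ U.powerset, w S * g S := by
    rw [← Finset.sum_neg_distrib]
    exact Finset.sum_congr rfl fun S _ => by ring
  have e3 : ∑ S ∈ U.powerset, w S * (-f S * -g S) = ∑ S ∈ U.powerset, w S * (f S * g S) :=
    Finset.sum_congr rfl fun S _ => by ring
  rw [e1, e2, e3, neg_mul_neg] at h
  exact h

theorem bw_form (P : Finset α) (q : α → ℝ) (ω : Finset α) (hω : ω ⊆ P) :
    (∏ e ∈ ω, (1 - q e)) * ∏ e ∈ P \ ω, q e = ∏ e ∈ P, if e ∈ ω then 1 - q e else q e := by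
  rw [Finset.prod_ite, Finset.filter_mem_eq_inter, Finset.inter_eq_right.2 hω,
    ← Finset.sdiff_eq_filter]

end gen

theorem wt_super (hSUB : T_SUB) (R : ℕ) (J : Site → ℝ) (hJ : IsCoupling R J) (h : Site → ℝ)
    (T : ℝ) (hT : 0 < T) (W : Finset Site) (B : Set Site) (S S' : Finset Site) :
    wt R J h T W B S * wt R J h T W B S' ≤
      wt R J h T W B (S ∩ S') * wt R J h T W B (S ∪ S') := by
  unfold wt
  rw [← Real.exp_add, ← Real.exp_add]
  apply Real.exp_le_exp.2
  have h1 := hSUB R J hJ h W (↑S ∪ B) (↑S' ∪ B)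
  have e1 : ((↑S ∪ B) ∩ (↑S' ∪ B) : Set Site) = ↑(S ∩ S') ∪ B := by
    rw [Finset.coe_inter, Set.inter_union_distrib_right]
  have e2 : ((↑S ∪ B) ∪ (↑S' ∪ B) : Set Site) = ↑(S ∪ S') ∪ B := by
    rw [Finset.coe_union]
    ext x
    simp only [Set.mem_union]
    tauto
  rw [e1, e2] at h1
  rw [← add_div, ← add_div]
  apply div_le_div_of_nonneg_right _ hT.le
  linarith

theorem bw_super (P : Finset (Site × Site)) (q : Site × Site → ℝ) (ω ω' : Finset (Site × Site))
    (h : ω ⊆ P) (h' : ω' ⊆ P) : bw P q ω * bw P q ω' ≤ bw P q (ω ∩ ω') * bw P q (ω ∪ ω') := by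
  unfold bw
  rw [bw_form P q ω h, bw_form P q ω' h', bw_form P q (ω ∩ ω') (Finset.inter_subset_left.trans h),
    bw_form P q (ω ∪ ω') (Finset.union_subset h h'), ← Finset.prod_mul_distrib,
    ← Finset.prod_mul_distrib]
  refine le_of_eq (Finset.prod_congr rfl fun e _ => ?_)
  by_cases h1 : e ∈ ω <;> by_cases h2 : e ∈ ω' <;> simp [h1, h2, mul_comm]

theorem bw_total (P : Finset (Site × Site)) (q : Site × Site → ℝ) :
    ∑ ω ∈ P.powerset, bw P q ω = 1 := by
  unfold bw
  rw [← Finset.prod_add]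
  exact Finset.prod_eq_one fun e _ => by ring

theorem pf_FKG (hSUB : T_SUB) : D_FKG := by
  intro R J hJ h T hT W B B' _ _ F G hFG
  have hq0 : ∀ e, 0 ≤ qe J T e := fun e => (Real.exp_pos _).le
  have hq1 : ∀ e, qe J T e ≤ 1 := by
    intro e
    unfold qe
    rw [Real.exp_le_one_iff]
    have := hJ.nonneg (e.1 - e.2)
    apply div_nonpos_of_nonpos_of_nonneg _ hT.le
    linarith
  have hbw0 : ∀ ω, 0 ≤ bw (prs R W) (qe J T) ω := by
    intro ω
    unfold bw
    exact mul_nonneg (Finset.prod_nonneg fun e _ => sub_nonneg.2 (hq1 e))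
      (Finset.prod_nonneg fun e _ => hq0 e)
  have hwt0 : ∀ (B : Set Site) (S : Finset Site), 0 ≤ wt R J h T W B S := fun B S =>
    (Real.exp_pos _).le
  have hZ : ∀ B : Set Site, 0 < Zf R J h T W B := fun B =>
    Finset.sum_pos (fun S _ => Real.exp_pos _) ⟨∅, Finset.empty_mem_powerset W⟩
  -- the three sums
  set F1 : Finset Site → Finset (Site × Site) → ℝ := fun S' ω =>
    ∑ S ∈ W.powerset, wt R J h T W B S * F S S' ω with hF1
  set G1 : Finset Site → Finset (Site × Site) → ℝ := fun S' ω =>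
    ∑ S ∈ W.powerset, wt R J h T W B S * G S S' ω with hG1
  set H1 : Finset Site → Finset (Site × Site) → ℝ := fun S' ω =>
    ∑ S ∈ W.powerset, wt R J h T W B S * (F S S' ω * G S S' ω) with hH1
  set F2 : Finset Site → ℝ := fun S' =>
    ∑ ω ∈ (prs R W).powerset, bw (prs R W) (qe J T) ω * F1 S' ω with hF2
  set G2 : Finset Site → ℝ := fun S' =>
    ∑ ω ∈ (prs R W).powerset, bw (prs R W) (qe J T) ω * G1 S' ω with hG2
  set H2 : Finset Site → ℝ := fun S' =>
    ∑ ω ∈ (prs R W).powerset, bw (prs R W) (qe J T) ω * H1 S' ω with hH2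
  have step1 : ∀ S' ω, S' ⊆ W → ω ⊆ prs R W → F1 S' ω * G1 S' ω ≤ Zf R J h T W B * H1 S' ω := by
    intro S' ω hS' hω
    exact fkg1 W (wt R J h T W B) (fun S => F S S' ω) (fun S => G S S' ω) (fun S _ => hwt0 B S)
      (fun S T' _ _ => wt_super hSUB R J hJ h T hT W B S T')
      (fun S T' h1 h2 => (hFG S T' S' S' ω ω h1 h2 (le_refl _) hS' (le_refl _) hω).1)
      (fun S T' h1 h2 => (hFG S T' S' S' ω ω h1 h2 (le_refl _) hS' (le_refl _) hω).2)
  have step2 : ∀ S', S' ⊆ W → F2 S' * G2 S' ≤ Zf R J h T W B * H2 S' := by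
    intro S' hS'
    have h1 := fkg1 (prs R W) (bw (prs R W) (qe J T)) (F1 S') (G1 S') (fun ω _ => hbw0 ω)
      (fun ω ω' h1 h2 => bw_super _ _ _ _ h1 h2)
      (fun ω ω' h1 h2 => Finset.sum_le_sum fun S hS => mul_le_mul_of_nonneg_left
        (hFG S S S' S' ω ω' (le_refl _) (Finset.mem_powerset.1 hS) (le_refl _) hS' h1 h2).1
        (hwt0 B S))
      (fun ω ω' h1 h2 => Finset.sum_le_sum fun S hS => mul_le_mul_of_nonneg_left
        (hFG S S S' S' ω ω' (le_refl _) (Finset.mem_powerset.1 hS) (le_refl _) hS' h1 h2).2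
        (hwt0 B S))
    rw [bw_total, one_mul] at h1
    refine h1.trans ?_
    rw [hH2]
    show _ ≤ Zf R J h T W B * ∑ ω ∈ (prs R W).powerset, bw (prs R W) (qe J T) ω * H1 S' ω
    rw [Finset.mul_sum]
    refine Finset.sum_le_sum fun ω hω => ?_
    calc bw (prs R W) (qe J T) ω * (F1 S' ω * G1 S' ω)
        ≤ bw (prs R W) (qe J T) ω * (Zf R J h T W B * H1 S' ω) :=
          mul_le_mul_of_nonneg_left (step1 S' ω hS' (Finset.mem_powerset.1 hω)) (hbw0 ω)
      _ = Zf R J h T W B * (bw (prs R W) (qe J T) ω * H1 S' ω) := by ring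
  have step3 : (∑ S' ∈ W.powerset, wt R J h T W B' S' * F2 S') *
      (∑ S' ∈ W.powerset, wt R J h T W B' S' * G2 S') ≤
      Zf R J h T W B * Zf R J h T W B' * ∑ S' ∈ W.powerset, wt R J h T W B' S' * H2 S' := by
    have h1 := fkg2 W (wt R J h T W B') F2 G2 (fun S _ => hwt0 B' S)
      (fun S T' _ _ => wt_super hSUB R J hJ h T hT W B' S T')
      (fun S T' h1 h2 => Finset.sum_le_sum fun ω hω => mul_le_mul_of_nonneg_left
        (Finset.sum_le_sum fun S₀ hS₀ => mul_le_mul_of_nonneg_left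
          (hFG S₀ S₀ T' S ω ω (le_refl _) (Finset.mem_powerset.1 hS₀) h1 h2 (le_refl _)
            (Finset.mem_powerset.1 hω)).1 (hwt0 B S₀)) (hbw0 ω))
      (fun S T' h1 h2 => Finset.sum_le_sum fun ω hω => mul_le_mul_of_nonneg_left
        (Finset.sum_le_sum fun S₀ hS₀ => mul_le_mul_of_nonneg_left
          (hFG S₀ S₀ T' S ω ω (le_refl _) (Finset.mem_powerset.1 hS₀) h1 h2 (le_refl _)
            (Finset.mem_powerset.1 hω)).2 (hwt0 B S₀)) (hbw0 ω))
    refine h1.trans ?_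
    have h2 : ∑ S' ∈ W.powerset, wt R J h T W B' S' * (F2 S' * G2 S') ≤
        Zf R J h T W B * ∑ S' ∈ W.powerset, wt R J h T W B' S' * H2 S' := by
      rw [Finset.mul_sum]
      refine Finset.sum_le_sum fun S' hS' => ?_
      calc wt R J h T W B' S' * (F2 S' * G2 S')
          ≤ wt R J h T W B' S' * (Zf R J h T W B * H2 S') :=
            mul_le_mul_of_nonneg_left (step2 S' (Finset.mem_powerset.1 hS')) (hwt0 B' S')
        _ = Zf R J h T W B * (wt R J h T W B' S' * H2 S') := by ring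
    calc (∑ S ∈ W.powerset, wt R J h T W B' S) *
          ∑ S' ∈ W.powerset, wt R J h T W B' S' * (F2 S' * G2 S')
        ≤ (∑ S ∈ W.powerset, wt R J h T W B' S) *
          (Zf R J h T W B * ∑ S' ∈ W.powerset, wt R J h T W B' S' * H2 S') :=
          mul_le_mul_of_nonneg_left h2 (hZ B').le
      _ = Zf R J h T W B * Zf R J h T W B' * ∑ S' ∈ W.powerset, wt R J h T W B' S' * H2 S' := by
          unfold Zf
          ring
  -- the sums in `Qg`
  have hsum : ∀ X : Finset Site → Finset Site → Finset (Site × Site) → ℝ,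
      ∑ S ∈ W.powerset, ∑ S' ∈ W.powerset, ∑ ω ∈ (prs R W).powerset,
        wt R J h T W B S * wt R J h T W B' S' * bw (prs R W) (qe J T) ω * X S S' ω =
      ∑ S' ∈ W.powerset, wt R J h T W B' S' * ∑ ω ∈ (prs R W).powerset,
        bw (prs R W) (qe J T) ω * ∑ S ∈ W.powerset, wt R J h T W B S * X S S' ω := by
    intro X
    rw [Finset.sum_comm]
    refine Finset.sum_congr rfl fun S' _ => ?_
    rw [Finset.mul_sum, Finset.sum_comm]
    refine Finset.sum_congr rfl fun ω _ => ?_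
    rw [Finset.mul_sum, Finset.mul_sum]
    refine Finset.sum_congr rfl fun S _ => ?_
    ring
  unfold Qg
  rw [hsum F, hsum G, hsum fun S S' ω => F S S' ω * G S S' ω]
  have hZZ : 0 < Zf R J h T W B * Zf R J h T W B' := mul_pos (hZ B) (hZ B')
  rw [div_mul_div_comm, div_le_div_iff₀ (mul_pos hZZ hZZ) hZZ]
  calc (∑ S' ∈ W.powerset, wt R J h T W B' S' * F2 S') *
        (∑ S' ∈ W.powerset, wt R J h T W B' S' * G2 S') *
          (Zf R J h T W B * Zf R J h T W B')
      ≤ (Zf R J h T W B * Zf R J h T W B' * ∑ S' ∈ W.powerset, wt R J h T W B' S' * H2 S') *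
          (Zf R J h T W B * Zf R J h T W B') := mul_le_mul_of_nonneg_right step3 hZZ.le
    _ = (∑ S' ∈ W.powerset, wt R J h T W B' S' * H2 S') *
          (Zf R J h T W B * Zf R J h T W B' * (Zf R J h T W B * Zf R J h T W B')) := by ring

end Pool.Agent.H99.RFT
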