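import Pool.Agent.H98.RFT.Basic
import Pool.Agent.H2.RFZ.QTEN

/-!
# Board `rft_modules`, row TEN3: the tension through a coarse cut
-/

set_option autoImplicit false

noncomputable section

open MeasureTheory ProbabilityTheory Filter Topology

namespace Pool.Agent.H99.RFT

open Pool.Agent.H98.RFC Pool.Agent.H98.RFZ Pool.Agent.H98.RFT
open Pool.Agent.H2.RFZ.Ten

theorem sum_le_local {s : Finset Site} {P : Finset (Site × Site)}
    {Q : Site → Finset (Site × Site)} {f : Site × Site → ℝ} {g : Site → Site × Site → ℝ}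
    (hg : ∀ y ∈ s, ∀ p ∈ Q y, 0 ≤ g y p)
    (H : ∀ p ∈ P, f p = 0 ∨ ∃ y ∈ s, p ∈ Q y ∧ f p ≤ g y p) :
    ∑ p ∈ P, f p ≤ ∑ y ∈ s, ∑ p ∈ Q y, g y p := by
  classical
  have hnn : ∀ p, ∀ y ∈ s, 0 ≤ (if p ∈ Q y then g y p else 0) := by
    intro p y hy
    by_cases h : p ∈ Q y
    · rw [if_pos h]; exact hg y hy p h
    · rw [if_neg h]
  have h1 : ∀ p ∈ P, f p ≤ ∑ y ∈ s, (if p ∈ Q y then g y p else 0) := by
    intro p hp
    rcases H p hp with h0 | ⟨y, hy, hpQ, hle⟩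
    · rw [h0]
      exact Finset.sum_nonneg (hnn p)
    · refine le_trans ?_ (Finset.single_le_sum (hnn p) hy)
      rw [if_pos hpQ]
      exact hle
  refine (Finset.sum_le_sum h1).trans ?_
  rw [Finset.sum_comm]
  refine Finset.sum_le_sum (fun y hy => ?_)
  rw [← Finset.sum_filter]
  refine Finset.sum_le_sum_of_subset_of_nonneg ?_ (fun p hp _ => hg y hy p hp)
  intro p hp
  exact (Finset.mem_filter.1 hp).2

theorem eb_mono (z : Site) {r r' : ℕ} (h : r ≤ r') : eb z r ⊆ eb z r' := by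
  intro x hx
  rw [mem_eb, mem_bx] at hx ⊢
  have hz : (r : ℤ) ≤ r' := by exact_mod_cast h
  obtain ⟨⟨⟨a1, a2⟩, ⟨a3, a4⟩⟩, a5⟩ := hx
  have hr : (0 : ℤ) ≤ r := Int.natCast_nonneg _
  refine ⟨⟨⟨by linarith, by linarith⟩, ⟨by linarith, by linarith⟩⟩, a5.trans ?_⟩
  exact pow_le_pow_left₀ hr hz 2

theorem pf_TEN3 (h1 : D_CUT) (h2 : D_INF) (h3 : R_RAD) : R_TEN := by
  classical
  intro R J hJ hR1 h T hT u n C c 𝒱 hu hC hn hc0 hV1 hV2 hc
  -- the local cuts
  have hopt : ∀ z : Site, ∃ r : ℕ, 5 * u ≤ r ∧ r ≤ 10 * u ∧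
      ∑ a ∈ eb z r, ∑ b ∈ hull R (eb z r) \ eb z r,
        J (a - b) * inf1 R J h T (eb z (C * u)) a ≤ bz R J h T u C z := fun z =>
    h3 R J hJ hR1 h T hT u C z (by omega) hC
  choose r hr1 hr2 hr3 using hopt
  set W : Site → Finset Site := fun z => eb z (r z) with hW
  have hu10 : (10 : ℤ) ≤ u := by exact_mod_cast (by omega : 10 ≤ u)
  have huR : (10 : ℤ) * R + 10 ≤ u := by exact_mod_cast hu
  have hR0 : (0 : ℤ) ≤ R := Int.natCast_nonneg _
  have hn14 : (14 : ℤ) ≤ n := by exact_mod_cast (by omega : 14 ≤ n)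
  have hCn : (C : ℤ) + 2 ≤ n := by exact_mod_cast hn
  have hC12 : (12 : ℤ) ≤ C := by exact_mod_cast hC
  -- small balls
  have hball : ∀ z x : Site, (z.1 ≤ x.1 ∧ x.1 < z.1 + u) → (z.2 ≤ x.2 ∧ x.2 < z.2 + u) →
      x ∈ W z := by
    intro z x hx1 hx2
    have hx : x ∈ eb z (5 * u) := by
      rw [mem_eb, mem_bx]
      push_cast
      exact small_ball z x u 5 (by linarith) le_rfl hx1 hx2
    exact eb_mono z (hr1 z) hx
  -- the cut
  set Λ : Finset Site := box (8 * (n * u)) with hΛ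
  set V : Finset Site := box (n * u) with hV
  have hcell : ∀ x : Site, (sm u ((x.1 / u, x.2 / u) : Site)).1 ≤ x.1 ∧
      x.1 < (sm u ((x.1 / u, x.2 / u) : Site)).1 + u ∧
      (sm u ((x.1 / u, x.2 / u) : Site)).2 ≤ x.2 ∧
      x.2 < (sm u ((x.1 / u, x.2 / u) : Site)).2 + u := by
    intro x
    have e := div_bd u x.1 (by linarith)
    have f := div_bd u x.2 (by linarith)
    exact ⟨e.1, e.2, f.1, f.2⟩
  set U : Finset Site := Λ.filter (fun x => ((x.1 / u, x.2 / u) : Site) ∈ 𝒱 ∨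
    ∃ y ∈ bdy 𝒱, x ∈ W (sm u y)) with hU
  have hUΛ : U ⊆ Λ := Finset.filter_subset _ _
  have hVU : V ⊆ U := by
    intro x hx
    rw [hV, mem_box] at hx
    push_cast at hx
    rw [hU, Finset.mem_filter, hΛ, mem_box]
    push_cast
    have hnu : (0 : ℤ) ≤ (n : ℤ) * u := by positivity
    refine ⟨⟨⟨by linarith [hx.1.1], by linarith [hx.1.2]⟩,
      ⟨by linarith [hx.2.1], by linarith [hx.2.2]⟩⟩, Or.inl (hV1 ?_)⟩
    rw [mem_box]
    push_cast
    exact ⟨div_in u n x.1 (by linarith) (by linarith) (by linarith [hx.1.1]) hx.1.2,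
      div_in u n x.2 (by linarith) (by linarith) (by linarith [hx.2.1]) hx.2.2⟩
  -- positions of the boundary cells
  have hbd : ∀ y ∈ bdy 𝒱, (-(4 * (n : ℤ) + 1) ≤ y.1 ∧ y.1 ≤ 4 * n + 1) ∧
      (-(4 * (n : ℤ) + 1) ≤ y.2 ∧ y.2 ≤ 4 * n + 1) ∧
      (y.1 ≤ -(2 * (n : ℤ) + 1) ∨ 2 * (n : ℤ) + 1 ≤ y.1 ∨ y.2 ≤ -(2 * (n : ℤ) + 1) ∨
        2 * (n : ℤ) + 1 ≤ y.2) := by
    intro y hy
    unfold bdy at hy
    rw [Finset.mem_sdiff, mem_hull] at hy
    obtain ⟨⟨a, ha, hya⟩, hy2⟩ := hy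
    have ha' := hV2 ha
    rw [mem_box] at ha'
    rw [mem_bx] at hya
    push_cast at ha' hya
    have hy3 : y ∉ box (2 * n) := fun h => hy2 (hV1 h)
    rw [mem_box] at hy3
    push_cast at hy3
    omega
  -- a point close to a boundary cell
  have hpos : ∀ y ∈ bdy 𝒱, ∀ x : Site, ∀ k : ℤ, 0 ≤ k → k ≤ n → k ≤ 4 * n - 1 →
      (((sm u y).1 - k * u ≤ x.1 ∧ x.1 ≤ (sm u y).1 + k * u) ∧
        ((sm u y).2 - k * u ≤ x.2 ∧ x.2 ≤ (sm u y).2 + k * u)) → x ∈ Λ ∧ x ∉ V := by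
    intro y hy x k hk0 hkn hk4 hx
    obtain ⟨⟨b1, b2⟩, ⟨b3, b4⟩, b5⟩ := hbd y hy
    unfold sm at hx
    simp only at hx
    obtain ⟨⟨x1, x2⟩, ⟨x3, x4⟩⟩ := hx
    have hu0 : (0 : ℤ) < u := by linarith
    constructor
    · rw [hΛ, mem_box]
      push_cast
      exact ⟨near_in u n k y.1 x.1 hu0 hk4 b1 b2 x1 x2, near_in u n k y.2 x.2 hu0 hk4 b3 b4 x3 x4⟩
    · intro hxV
      rw [hV, mem_box] at hxV
      push_cast at hxV
      obtain ⟨⟨v1, v2⟩, ⟨v3, v4⟩⟩ := hxV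
      rcases b5 with b | b | b | b
      · exact far_lo u n k y.1 x.1 hu0 hkn b x2 v1
      · exact far_hi u n k y.1 x.1 hu0 hkn b x1 v2
      · exact far_lo u n k y.2 x.2 hu0 hkn b x4 v3
      · exact far_hi u n k y.2 x.2 hu0 hkn b x3 v4
  -- points of the small cut are close
  have hWpos : ∀ z x : Site, x ∈ W z →
      ((z.1 - 10 * u ≤ x.1 ∧ x.1 ≤ z.1 + 10 * u) ∧ (z.2 - 10 * u ≤ x.2 ∧ x.2 ≤ z.2 + 10 * u)) ∧
      nsq (x - z) ≤ (10 * (u : ℤ)) ^ 2 := by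
    intro z x hx
    have := eb_mono z (hr2 z) hx
    rw [mem_eb, mem_bx] at this
    push_cast at this
    exact this
  have hWE : ∀ z : Site, W z ⊆ eb z (C * u) := fun z =>
    eb_mono z ((hr2 z).trans (Nat.mul_le_mul_right u (by omega)))
  have hsubE : ∀ y ∈ bdy 𝒱, eb (sm u y) (C * u) ⊆ Λ \ V := by
    intro y hy x hx
    rw [mem_eb, mem_bx] at hx
    push_cast at hx
    obtain ⟨f1, f2⟩ := hpos y hy x C (by linarith) (by linarith) (by linarith) hx.1
    exact Finset.mem_sdiff.2 ⟨f1, f2⟩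
  obtain ⟨hI1, -, hI3⟩ := h2 R J hJ h T hT
  have hcut := h1 R J hJ h T hT V U Λ hVU hUΛ
  refine hcut.trans (mul_le_mul_of_nonneg_left ?_ (by norm_num))
  have hprod : ∑ a ∈ U, ∑ b ∈ hull R U \ U, J (a - b) * QP R J h T (Λ \ V) (Cv V a) =
      ∑ p ∈ U ×ˢ (hull R U \ U), J (p.1 - p.2) * QP R J h T (Λ \ V) (Cv V p.1) := by
    rw [Finset.sum_product]
  rw [hprod]
  have hsum := sum_le_local (s := bdy 𝒱) (P := U ×ˢ (hull R U \ U))
    (Q := fun y => W (sm u y) ×ˢ (hull R (W (sm u y)) \ W (sm u y)))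
    (f := fun p => J (p.1 - p.2) * QP R J h T (Λ \ V) (Cv V p.1))
    (g := fun y p => J (p.1 - p.2) * inf1 R J h T (eb (sm u y) (C * u)) p.1) ?_ ?_
  · refine hsum.trans ?_
    have : ∑ y ∈ bdy 𝒱, ∑ p ∈ W (sm u y) ×ˢ (hull R (W (sm u y)) \ W (sm u y)),
        J (p.1 - p.2) * inf1 R J h T (eb (sm u y) (C * u)) p.1 ≤ ∑ y ∈ bdy 𝒱, c := by
      refine Finset.sum_le_sum (fun y hy => ?_)
      rw [Finset.sum_product]
      exact (hr3 (sm u y)).trans (hc y hy)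
    refine this.trans (le_of_eq ?_)
    rw [Finset.sum_const, nsmul_eq_mul, mul_comm]
  · intro y hy p hp
    rw [Finset.mem_product] at hp
    exact mul_nonneg (hJ.nonneg _) (hI1 _ p.1 (hWE _ hp.1)).2.1
  · intro p hp
    rw [Finset.mem_product] at hp
    obtain ⟨a, b⟩ := p
    obtain ⟨ha, hb⟩ := hp
    simp only at ha hb ⊢
    by_cases hJab : J (a - b) = 0
    · left; rw [hJab, zero_mul]
    right
    rw [hU, Finset.mem_filter] at ha
    rw [Finset.mem_sdiff] at hb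
    obtain ⟨haΛ, ha⟩ := ha
    -- the bond is short
    have hab : a - b ∈ box R := by
      by_contra hcon
      exact hJab (hJ.range _ hcon)
    rw [mem_box, Prod.fst_sub, Prod.snd_sub] at hab
    obtain ⟨⟨r1, r2⟩, ⟨r3, r4⟩⟩ := hab
    -- `b` is in the large box as soon as it is in a local set
    have hbnot : ∀ y ∈ bdy 𝒱, b ∉ W (sm u y) := by
      intro y hy hbW
      apply hb.2
      rw [hU, Finset.mem_filter]
      obtain ⟨hp, _⟩ := hWpos _ _ hbW
      exact ⟨(hpos y hy b 10 (by norm_num) (by linarith) (by linarith) hp).1,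
        Or.inr ⟨y, hy, hbW⟩⟩
    have hfar : ∀ y ∈ bdy 𝒱, a ∈ W (sm u y) →
        ∃ y ∈ bdy 𝒱, (a, b) ∈ W (sm u y) ×ˢ (hull R (W (sm u y)) \ W (sm u y)) ∧
          J (a - b) * QP R J h T (Λ \ V) (Cv V a) ≤
            J (a - b) * inf1 R J h T (eb (sm u y) (C * u)) a := by
      intro y hy haW
      refine ⟨y, hy, Finset.mem_product.2 ⟨haW, Finset.mem_sdiff.2 ⟨mem_hull.2 ⟨a, haW, ?_⟩,
        hbnot y hy⟩⟩, ?_⟩
      · rw [mem_bx]
        refine ⟨⟨by linarith, by linarith⟩, ⟨by linarith, by linarith⟩⟩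
      · refine mul_le_mul_of_nonneg_left ?_ (hJ.nonneg _)
        exact hI3 _ _ V (hsubE y hy) Finset.disjoint_sdiff a (hWE _ haW)
    rcases ha with ha | ⟨y, hy, haW⟩
    · -- `a` is in a cell of `𝒱`, so the cell of `b` is a boundary cell: contradiction
      exfalso
      obtain ⟨e1, e2, e3, e4⟩ := hcell a
      obtain ⟨f1, f2, f3, f4⟩ := hcell b
      have hcb : ((b.1 / u, b.2 / u) : Site) ∉ 𝒱 := by
        intro hcb
        apply hb.2
        rw [hU, Finset.mem_filter]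
        refine ⟨?_, Or.inl hcb⟩
        have hcb' := hV2 hcb
        rw [mem_box] at hcb'
        push_cast at hcb'
        rw [hΛ, mem_box]
        push_cast
        obtain ⟨⟨g1, g2⟩, ⟨g3, g4⟩⟩ := hcb'
        exact ⟨cell_in u n _ b.1 (by linarith) (by linarith) g1 g2 f1 f2,
          cell_in u n _ b.2 (by linarith) (by linarith) g3 g4 f3 f4⟩
      have hbb : ((b.1 / u, b.2 / u) : Site) ∈ bdy 𝒱 := by
        unfold bdy
        rw [Finset.mem_sdiff, mem_hull]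
        refine ⟨⟨_, ha, ?_⟩, hcb⟩
        rw [mem_bx]
        have g1 := div_near u a.1 b.1 (by linarith) (by linarith)
        have g2 := div_near u b.1 a.1 (by linarith) (by linarith)
        have g3 := div_near u a.2 b.2 (by linarith) (by linarith)
        have g4 := div_near u b.2 a.2 (by linarith) (by linarith)
        push_cast
        exact ⟨⟨by linarith, by linarith⟩, ⟨by linarith, by linarith⟩⟩
      exact hbnot _ hbb (hball _ _ ⟨f1, f2⟩ ⟨f3, f4⟩)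
    · exact hfar y hy haW

end Pool.Agent.H99.RFT
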